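import Pool.Agent.Run7.h684.SO.Def

/-! # Piece TAU of the project SO (helper67) -/

set_option autoImplicit false

open Filter Topology

namespace Pool.Agent.Run7.h67.SO

open Run7.h684.SO

theorem kernel {x : ℝ} (hx : 0 ≤ x) :
    |(if x ≤ 1 then (1 : ℝ) else 0) - Real.exp (-x)| ≤
      2 * (Real.exp (-(x / 2)) - Real.exp (-(2 * x))) := by
  set y : ℝ := Real.exp (-(x / 2)) with hy
  have hy0 : 0 < y := Real.exp_pos _
  have hy1 : y ≤ 1 := Real.exp_le_one_iff.2 (by linarith)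
  have e1 : Real.exp (-x) = y ^ 2 := by
    rw [hy, ← Real.exp_nat_mul]; congr 1; push_cast; ring
  have e2 : Real.exp (-(2 * x)) = y ^ 4 := by
    rw [hy, ← Real.exp_nat_mul]; congr 1; push_cast; ring
  rw [e1, e2]
  split_ifs with h
  · have h1 : 1 / 2 ≤ y := by
      have := Real.add_one_le_exp (-(x / 2))
      linarith
    have h2 : 0 ≤ 1 - y ^ 2 := by nlinarith
    rw [abs_of_nonneg h2]
    have h3 : 0 ≤ (1 - y) * (y + 2 * y ^ 2 + 2 * y ^ 3 - 1) := by
      refine mul_nonneg (by linarith) ?_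
      have h4 : 1 / 4 ≤ y ^ 2 := by nlinarith
      have h5 : 0 ≤ y ^ 3 := by positivity
      linarith
    nlinarith
  · have h1 : y ≤ 2 / 3 := by
      have h2 := Real.add_one_le_exp (x / 2)
      have h3 : 3 / 2 ≤ Real.exp (x / 2) := by linarith
      have h4 : y = (Real.exp (x / 2))⁻¹ := by rw [hy, Real.exp_neg]
      rw [h4]
      calc (Real.exp (x / 2))⁻¹ ≤ (3 / 2)⁻¹ := inv_anti₀ (by norm_num) h3
        _ = 2 / 3 := by norm_num
    rw [zero_sub, abs_neg, abs_of_nonneg (by positivity)]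
    have h5 : y ^ 3 ≤ (2 / 3) ^ 3 := pow_le_pow_left₀ hy0.le h1 3
    have h6 : 0 ≤ y * (2 - 2 * y ^ 3 - y) := mul_nonneg hy0.le (by norm_num at h5; linarith)
    nlinarith

theorem rpow_split {P δ : ℝ} (hP : 0 < P) :
    P ^ (-(1 + δ)) = P⁻¹ * Real.exp (-(δ * Real.log P)) := by
  rw [Real.rpow_def_of_pos hP]
  have : Real.log P * -(1 + δ) = -Real.log P + -(δ * Real.log P) := by ring
  rw [this, Real.exp_add, Real.exp_neg, Real.exp_log hP]

theorem Sw_hasSum (w : ℕ → ℝ) {x : ℝ} (hx : 0 ≤ x) :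
    HasSum (fun p : Nat.Primes => if ((p : ℕ) : ℝ) ≤ x then w p / ((p : ℕ) : ℝ) else 0)
      (Sw w x) := by
  let S : Finset ℕ := (Finset.Icc 1 ⌊x⌋₊).filter Nat.Prime
  let F : ℕ → ℝ := fun n => if n ∈ S then w n / n else 0
  have h1 : HasSum F (∑ n ∈ S, F n) := hasSum_sum_of_ne_finset_zero fun n hn => if_neg hn
  have h2 : ∑ n ∈ S, F n = Sw w x := by
    unfold Sw
    exact Finset.sum_congr rfl fun n hn => if_pos hn
  rw [h2] at h1
  have h3 : Function.support F ⊆ {p : ℕ | p.Prime} := by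
    intro n hn
    by_contra h
    exact hn (if_neg fun h4 => h (Finset.mem_filter.1 h4).2)
  have h4 : HasSum (F ∘ ((↑) : {p : ℕ | p.Prime} → ℕ)) (Sw w x) :=
    (hasSum_subtype_iff_of_support_subset h3).2 h1
  have h5 : (fun p : Nat.Primes => if ((p : ℕ) : ℝ) ≤ x then w p / ((p : ℕ) : ℝ) else 0) =
      fun p : Nat.Primes => F p := by
    funext p
    have h6 : ((p : ℕ) ∈ S) ↔ ((p : ℕ) : ℝ) ≤ x := by
      rw [Finset.mem_filter, Finset.mem_Icc, Nat.le_floor_iff hx]
      exact ⟨fun h => h.1.2, fun h => ⟨⟨p.2.one_lt.le, h⟩, p.2⟩⟩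
    show _ = if ((p : ℕ) ∈ S) then w p / ((p : ℕ) : ℝ) else 0
    simp only [h6]
  rw [h5]
  exact h4

theorem main_bound (w : ℕ → ℝ) (hw : ∀ n, 0 ≤ w n) (hs : Sm w) {X : ℝ} (hX : 0 < X)
    (hU : 0 < Real.log X) :
    |Sw w X - Lw w (1 / Real.log X)| ≤
      2 * (Lw w (1 / (2 * Real.log X)) - Lw w (2 / Real.log X)) := by
  set V : ℝ := Real.log X with hV
  have h1 := Sw_hasSum w hX.le
  have h2 := (hs (1 / V) (by positivity)).hasSum
  have h3 := (hs (1 / (2 * V)) (by positivity)).hasSum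
  have h4 := (hs (2 / V) (by positivity)).hasSum
  have h5 := h1.sub h2
  have h6 := (h3.sub h4).mul_left 2
  have h7 := HasSum.norm_le_of_bounded h5 h6 (fun p => ?_)
  · exact h7
  · have hP : (0 : ℝ) < ((p : ℕ) : ℝ) := by exact_mod_cast p.2.pos
    have hP1 : (1 : ℝ) ≤ ((p : ℕ) : ℝ) := by exact_mod_cast p.2.one_lt.le
    have hl : 0 ≤ Real.log ((p : ℕ) : ℝ) := Real.log_nonneg hP1
    set x : ℝ := Real.log ((p : ℕ) : ℝ) / V with hx
    have hx0 : 0 ≤ x := div_nonneg hl hU.le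
    have hk := kernel hx0
    have e1 : 1 / V * Real.log ((p : ℕ) : ℝ) = x := by rw [hx]; ring
    have e2 : 1 / (2 * V) * Real.log ((p : ℕ) : ℝ) = x / 2 := by rw [hx]; field_simp
    have e3 : 2 / V * Real.log ((p : ℕ) : ℝ) = 2 * x := by rw [hx]; ring
    have hiff : ((p : ℕ) : ℝ) ≤ X ↔ x ≤ 1 := by
      rw [hx, div_le_one hU, hV]
      exact (Real.log_le_log_iff hP hX).symm
    rw [rpow_split hP, rpow_split hP, rpow_split hP, e1, e2, e3]
    have h8 : (if ((p : ℕ) : ℝ) ≤ X then w p / ((p : ℕ) : ℝ) else 0) -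
        w p * (((p : ℕ) : ℝ)⁻¹ * Real.exp (-x)) =
        (w p / ((p : ℕ) : ℝ)) * ((if x ≤ 1 then (1 : ℝ) else 0) - Real.exp (-x)) := by
      by_cases h : x ≤ 1
      · rw [if_pos (hiff.2 h), if_pos h]; field_simp
      · rw [if_neg (fun h' => h (hiff.1 h')), if_neg h]; ring
    rw [h8, norm_mul, Real.norm_eq_abs, Real.norm_eq_abs,
      abs_of_nonneg (div_nonneg (hw p) hP.le)]
    calc w p / ((p : ℕ) : ℝ) * |(if x ≤ 1 then (1 : ℝ) else 0) - Real.exp (-x)| ≤
        w p / ((p : ℕ) : ℝ) * (2 * (Real.exp (-(x / 2)) - Real.exp (-(2 * x)))) :=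
          mul_le_mul_of_nonneg_left hk (div_nonneg (hw p) hP.le)
      _ = _ := by field_simp

theorem t_TAU : S_TAU := by
  rintro w hw hs ⟨C, hC⟩
  have hmono : ∀ x y : ℝ, x ≤ y → Sw w x ≤ Sw w y := by
    intro x y hxy
    unfold Sw
    refine Finset.sum_le_sum_of_subset_of_nonneg ?_ fun n _ _ => div_nonneg (hw n) (by positivity)
    exact Finset.filter_subset_filter _
      (Finset.Icc_subset_Icc le_rfl (Nat.floor_le_floor hxy))
  have hnn : ∀ x : ℝ, 0 ≤ Sw w x := fun x =>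
    Finset.sum_nonneg fun n _ => div_nonneg (hw n) (by positivity)
  have hC0 : 0 ≤ C := (abs_nonneg _).trans (hC 1 one_pos le_rfl)
  have hl4 : 0 ≤ Real.log 4 := Real.log_nonneg (by norm_num)
  have hl2 : 0 < Real.log 2 := Real.log_pos (by norm_num)
  refine ⟨(C + 2 * (2 * C + Real.log 4)) +
    (Sw w (Real.exp 2) + |Real.log (Real.log 2)| + Real.log 2), fun x hx => ?_⟩
  have hx0 : 0 < x := by linarith
  have hlx : Real.log 2 ≤ Real.log x := Real.log_le_log (by norm_num) hx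
  have hU : 0 < Real.log x := lt_of_lt_of_le hl2 hlx
  by_cases h : 2 ≤ Real.log x
  · have h1 := main_bound w hw hs hx0 hU
    have h2 := hC (1 / Real.log x) (by positivity) (by
      rw [div_le_one hU]; linarith)
    have h3 := hC (1 / (2 * Real.log x)) (by positivity) (by
      rw [div_le_one (by positivity)]; linarith)
    have h4 := hC (2 / Real.log x) (by positivity) (by
      rw [div_le_one hU]; linarith)
    have e2 : Real.log (1 / Real.log x) = -Real.log (Real.log x) := by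
      rw [one_div, Real.log_inv]
    have e3 : Real.log (1 / (2 * Real.log x)) = -(Real.log 2 + Real.log (Real.log x)) := by
      rw [one_div, Real.log_inv, Real.log_mul (by norm_num) hU.ne']
    have e4 : Real.log (2 / Real.log x) = Real.log 2 - Real.log (Real.log x) :=
      Real.log_div (by norm_num) hU.ne'
    have e5 : Real.log 4 = 2 * Real.log 2 := by
      rw [show (4 : ℝ) = 2 ^ 2 by norm_num, Real.log_pow]; push_cast; ring
    rw [e2, abs_le] at h2
    rw [e3, abs_le] at h3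
    rw [e4, abs_le] at h4
    rw [abs_le] at h1
    have h5 := hnn (Real.exp 2)
    have h6 := abs_nonneg (Real.log (Real.log 2))
    rw [abs_le]
    constructor <;> linarith [h1.1, h1.2, h2.1, h2.2, h3.1, h3.2, h4.1, h4.2]
  · push Not at h
    have h1 : x ≤ Real.exp 2 := by
      rw [← Real.exp_log hx0]
      exact Real.exp_le_exp.2 h.le
    have h2 := hmono x _ h1
    have h3 := hnn x
    have h4 : Real.log (Real.log x) ≤ Real.log 2 := Real.log_le_log hU h.le
    have h5 : Real.log (Real.log 2) ≤ Real.log (Real.log x) := Real.log_le_log hl2 hlx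
    have h6 := neg_abs_le (Real.log (Real.log 2))
    have h7 := abs_nonneg (Real.log (Real.log 2))
    rw [abs_le]
    constructor <;> linarith

end Pool.Agent.Run7.h67.SO
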