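import Pool.Agent.Run7.h684.SO.Def

/-! # Piece ZET of the project SO (helper67) -/

set_option autoImplicit false

open Filter Topology Complex

namespace Pool.Agent.Run7.h67.SO

open Run7.h684.SO

/-- the coefficients of `log ζ` -/
noncomputable def bz (n : ℕ) : ℂ :=
  ((ArithmeticFunction.vonMangoldt n / Real.log n : ℝ) : ℂ)

theorem bz_pow {p l : ℕ} (hp : p.Prime) (hl : l ≠ 0) : bz (p ^ l) = 1 / l := by
  unfold bz
  rw [ArithmeticFunction.vonMangoldt_apply_pow hl, ArithmeticFunction.vonMangoldt_apply_prime hp]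
  have h1 : Real.log p ≠ 0 := (Real.log_pos (by exact_mod_cast hp.one_lt)).ne'
  have h2 : (l : ℝ) ≠ 0 := by exact_mod_cast hl
  push_cast
  rw [Real.log_pow]
  have h3 : Real.log p / ((l : ℝ) * Real.log p) = 1 / l := by field_simp
  have h4 : ((Real.log p / ((l : ℝ) * Real.log p) : ℝ) : ℂ) = ((1 / l : ℝ) : ℂ) := by rw [h3]
  push_cast at h4 ⊢
  exact h4

theorem pow_cpow (p n : ℕ) (s : ℂ) : (((p ^ n : ℕ)) : ℂ) ^ s = ((p : ℂ) ^ s) ^ n := by
  induction n with
  | zero => simp
  | succ n ih =>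
    rw [pow_succ, pow_succ, ← ih, Nat.cast_mul, natCast_mul_natCast_cpow]

theorem norm_lt {p : ℕ} (hp : p.Prime) {s : ℂ} (hs : 1 < s.re) : ‖(p : ℂ) ^ (-s)‖ < 1 := by
  rw [norm_natCast_cpow_of_pos hp.pos]
  refine Real.rpow_lt_one_of_one_lt_of_neg (by exact_mod_cast hp.one_lt) ?_
  rw [neg_re]; linarith

/-- the Euler factor -/
theorem fac (p : Nat.Primes) {s : ℂ} (hs : 1 < s.re) :
    exp (∑' l : ℕ, bz ((p : ℕ) ^ (l + 1)) * (((p : ℕ) ^ (l + 1) : ℕ) : ℂ) ^ (-s)) =
      (1 - ((p : ℕ) : ℂ) ^ (-s))⁻¹ := by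
  have hz := norm_lt p.2 hs
  have h1 := hasSum_taylorSeries_neg_log hz
  have h2 := (hasSum_nat_add_iff' 1).2 h1
  simp only [Finset.range_one, Finset.sum_singleton, pow_zero, Nat.cast_zero, div_zero,
    sub_zero] at h2
  have h3 : (fun l : ℕ => bz ((p : ℕ) ^ (l + 1)) * (((p : ℕ) ^ (l + 1) : ℕ) : ℂ) ^ (-s)) =
      fun l : ℕ => (((p : ℕ) : ℂ) ^ (-s)) ^ (l + 1) / ((l + 1 : ℕ) : ℂ) := by
    funext l
    rw [bz_pow p.2 (by omega), pow_cpow]
    ring
  rw [h3, h2.tsum_eq, Complex.exp_neg, Complex.exp_log]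
  intro h4
  rw [sub_eq_zero] at h4
  rw [← h4, norm_one] at hz
  exact lt_irrefl _ hz

theorem eul_zeta : Eul one bz riemannZeta := by
  refine ⟨?_, ?_, ⟨0, 1, by norm_num, zero_le_one, ?_⟩, ?_⟩
  · intro p hp
    have := bz_pow hp one_ne_zero
    rw [pow_one] at this
    rw [this]
    simp [one]
  · intro s hs
    exact LSeriesSummable_one_iff.2 hs
  · intro p l hp hl
    rw [bz_pow hp (by omega), mul_zero, Real.rpow_zero, mul_one, norm_div, norm_one,
      Complex.norm_natCast]
    have : (1 : ℝ) ≤ l := by exact_mod_cast hl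
    rw [div_le_one (by linarith)]
    exact this
  · intro s hs
    have h := riemannZeta_eulerProduct_hasProd hs
    have e : (fun p : Nat.Primes =>
        exp (∑' l : ℕ, bz ((p : ℕ) ^ (l + 1)) * (((p : ℕ) ^ (l + 1) : ℕ) : ℂ) ^ (-s))) =
        fun p : Nat.Primes => (1 - ((p : ℕ) : ℂ) ^ (-s))⁻¹ := by
      funext p
      exact fac p hs
    rw [e]
    exact h

theorem pt_re (δ t : ℝ) : (pt δ t).re = 1 + δ := by simp [pt]

theorem pt_cont (t : ℝ) : Continuous fun δ : ℝ => pt δ t := by
  unfold pt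
  fun_prop

/-- a continuous nonvanishing function on `[0,1]` has bounded logarithm -/
theorem log_bdd {f : ℝ → ℂ} (hf : ContinuousOn f (Set.Icc 0 1))
    (h0 : ∀ δ ∈ Set.Icc (0 : ℝ) 1, f δ ≠ 0) :
    ∃ C : ℝ, ∀ δ ∈ Set.Icc (0 : ℝ) 1, |Real.log ‖f δ‖| ≤ C := by
  have h1 : ContinuousOn (fun δ => Real.log ‖f δ‖) (Set.Icc (0 : ℝ) 1) :=
    hf.norm.log fun δ hδ => norm_ne_zero_iff.2 (h0 δ hδ)
  obtain ⟨C, hC⟩ := isCompact_Icc.exists_bound_of_continuousOn h1
  exact ⟨C, fun δ hδ => hC δ hδ⟩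

theorem t_ZET : S_LOG → S_ZET := by
  intro hLOG
  obtain ⟨hsum, C0, hC0⟩ := hLOG one bz riemannZeta eul_zeta
  refine ⟨?_, ?_, ?_⟩
  · intro δ hδ
    have := hsum δ hδ
    simpa [one] using this
  · -- at one
    let f : ℝ → ℂ := Function.update (fun δ : ℝ => (δ : ℂ) * riemannZeta (pt δ 0)) 0 1
    have hf1 : ∀ δ : ℝ, δ ≠ 0 → f δ = (δ : ℂ) * riemannZeta (pt δ 0) := fun δ h =>
      Function.update_of_ne h _ _
    have hf0 : f 0 = 1 := Function.update_self _ _ _
    have hcont : ContinuousOn f (Set.Icc 0 1) := by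
      intro δ hδ
      by_cases h : δ = 0
      · subst h
        refine ContinuousAt.continuousWithinAt ?_
        rw [continuousAt_update_same]
        have h1 : Tendsto (fun δ : ℝ => pt δ 0) (𝓝[≠] 0) (𝓝[≠] 1) := by
          refine tendsto_nhdsWithin_of_tendsto_nhds_of_eventually_within _ ?_ ?_
          · have := (pt_cont 0).tendsto 0
            have e : pt 0 0 = 1 := by simp [pt]
            rw [e] at this
            exact this.mono_left nhdsWithin_le_nhds
          · filter_upwards [self_mem_nhdsWithin] with δ hδ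
            intro h2
            have h3 := congrArg Complex.re h2
            rw [pt_re, one_re] at h3
            exact hδ (by linarith : δ = 0)
        have h2 := riemannZeta_residue_one.comp h1
        refine h2.congr fun δ => ?_
        simp only [Function.comp_apply]
        congr 1
        simp [pt]
      · have h1 : ContinuousAt (fun δ : ℝ => (δ : ℂ) * riemannZeta (pt δ 0)) δ := by
          refine (Complex.continuous_ofReal.continuousAt).mul ?_
          refine ContinuousAt.comp (f := fun δ : ℝ => pt δ 0) ?_ (pt_cont 0).continuousAt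
          refine (differentiableAt_riemannZeta ?_).continuousAt
          intro h2
          have h3 := congrArg Complex.re h2
          rw [pt_re, one_re] at h3
          exact h (by linarith)
        refine ContinuousAt.continuousWithinAt ?_
        exact (continuousAt_update_of_ne h).2 h1
    obtain ⟨C, hC⟩ := log_bdd hcont (by
      intro δ hδ
      by_cases h : δ = 0
      · subst h; rw [hf0]; exact one_ne_zero
      · rw [hf1 δ h]
        refine mul_ne_zero (by exact_mod_cast h) ?_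
        exact riemannZeta_ne_zero_of_one_le_re (by rw [pt_re]; linarith [hδ.1]))
    refine ⟨C + C0, fun δ hδ hδ1 => ?_⟩
    have h1 := hC δ ⟨hδ.le, hδ1⟩
    obtain ⟨h2, h3⟩ := hC0 δ 0 hδ
    rw [hf1 δ hδ.ne', norm_mul, Complex.norm_real, Real.norm_eq_abs, abs_of_pos hδ,
      Real.log_mul hδ.ne' (norm_ne_zero_iff.2 h2)] at h1
    rw [abs_le] at h1 h3 ⊢
    constructor <;> linarith [h1.1, h1.2, h3.1, h3.2]
  · intro t ht
    obtain ⟨C, hC⟩ := log_bdd (f := fun δ : ℝ => riemannZeta (pt δ t)) (by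
        intro δ hδ
        refine ContinuousAt.continuousWithinAt ?_
        refine ContinuousAt.comp (f := fun δ : ℝ => pt δ t) ?_ (pt_cont t).continuousAt
        refine (differentiableAt_riemannZeta ?_).continuousAt
        intro h2
        have h3 := congrArg Complex.im h2
        simp [pt] at h3
        exact ht h3) (by
        intro δ hδ
        exact riemannZeta_ne_zero_of_one_le_re (by rw [pt_re]; linarith [hδ.1]))
    refine ⟨C + C0, fun δ hδ hδ1 => ?_⟩
    have h1 := hC δ ⟨hδ.le, hδ1⟩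
    obtain ⟨h2, h3⟩ := hC0 δ t hδ
    rw [abs_le] at h1 h3 ⊢
    constructor <;> linarith [h1.1, h1.2, h3.1, h3.2]

end Pool.Agent.Run7.h67.SO
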